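import Pool.Agent.MP_71ac24_nt.Mg.Perturb

set_option autoImplicit false

namespace Pool.Agent.Results.MP_71ac24_nt.Progressions

/-- Large values of Dirichlet polynomials at points within distance one of an arithmetic
progression: Montgomery's bound holds up to an extra term of size at most `T ^ (5 / 8)`. -/
theorem result :
    ∀ ε : ℝ, 0 < ε → ∃ C : ℝ, 0 < C ∧
      ∀ N : ℕ, 1 ≤ N → ∀ T : ℝ, 0 ≤ T → T ≤ (N : ℝ) ^ 2 →
        ∀ a : ℕ → ℂ, (∀ n, ‖a n‖ ≤ 1) →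
          ∀ (R : ℕ) (t : ℕ → ℝ) (t₀ h : ℝ), 1 ≤ h →
            (∀ j < R, 0 ≤ t j ∧ t j ≤ T ∧ |t j - (t₀ + j * h)| ≤ 1) →
              ∑ j ∈ Finset.range R, ‖∑ n ∈ Finset.Icc 1 N,
                  a n * Complex.exp (Complex.I * (t j : ℂ) * (Real.log (n : ℝ) : ℂ))‖ ^ 2
                ≤ C * (N : ℝ) ^ ε *
                  ((N : ℝ) + (R : ℝ) + min (T ^ (5 / 8 : ℝ))
                    (T / R + T ^ (1 / 2 : ℝ) * (R : ℝ) ^ (3 / 16 : ℝ) +
                      T ^ (5 / 14 : ℝ) * (R : ℝ) ^ (3 / 7 : ℝ))) * (N : ℝ) := by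
  intro ε hε
  obtain ⟨C, hC, h⟩ := Pool.Agent.MP_71ac24_nt.main ε hε
  exact ⟨C, hC, fun N hN T hT0 hT a ha R t t₀ h' hh ht => h N R T t₀ h' a t hN hT0 hT hh ha ht⟩

end Pool.Agent.Results.MP_71ac24_nt.Progressions
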